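import Pool.Agent.Helper16.CubicTwentyOne

set_option autoImplicit false

namespace Pool.Agent.Results.MP_ffd2c1_ag.TwentyOnePlanes

open MvPolynomial Module

/-- the planes in the cubic fourfold `{F = 0}`: three-dimensional linear subspaces of `ℂ⁶` on which
`F` vanishes -/
def planes (F : MvPolynomial (Fin 6) ℂ) : Set (Submodule ℂ (Fin 6 → ℂ)) :=
  {W | finrank ℂ W = 3 ∧ ∀ x ∈ W, eval x F = 0}

/-- the point `p` of the cubic fourfold `{F = 0}` is an Eckardt point: the tangent hyperplane
section at `p` is a cone with vertex `p` -/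
def IsEckardt (F : MvPolynomial (Fin 6) ℂ) (p : Fin 6 → ℂ) : Prop :=
  p ≠ 0 ∧ eval p F = 0 ∧
    ∀ x : Fin 6 → ℂ, ∑ i, x i * eval p (pderiv i F) = 0 → eval (x + p) F = eval x F

/-- the equation in the affine chart where the first coordinate is one -/
noncomputable def affine (F : MvPolynomial (Fin 6) ℂ) : MvPolynomial (Fin 5) ℂ :=
  aeval (Fin.cons 1 X : Fin 6 → MvPolynomial (Fin 5) ℂ) F

/-- the cubic fourfold `{F = 0}` is rational: the affine coordinate ring is a domain and its
fraction field is a rational function field in four variables -/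
def IsRational (F : MvPolynomial (Fin 6) ℂ) : Prop :=
  (Ideal.span {affine F}).IsPrime ∧
    Nonempty (FractionRing (MvPolynomial (Fin 5) ℂ ⧸ Ideal.span {affine F}) ≃ₐ[ℂ]
      FractionRing (MvPolynomial (Fin 4) ℂ))

/-- Let `F = 0` be a smooth complex cubic fourfold. If it contains at least 21 planes, then it is
rational, or it contains exactly 27 planes and they all pass through an Eckardt point.  If it
contains at least 28 planes, then two of them are disjoint. -/
theorem result (F : MvPolynomial (Fin 6) ℂ) (hF : F.IsHomogeneous 3)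
    (hs : ∀ x : Fin 6 → ℂ, x ≠ 0 → ∃ i, eval x (pderiv i F) ≠ 0) :
    (21 ≤ (planes F).encard → IsRational F ∨
      ((planes F).encard = 27 ∧ ∃ p, IsEckardt F p ∧ ∀ W ∈ planes F, p ∈ W)) ∧
    (28 ≤ (planes F).encard → ∃ W₁ ∈ planes F, ∃ W₂ ∈ planes F, W₁ ⊓ W₂ = ⊥) := by
  have hs' : Helper16.Smooth F := hs
  refine ⟨fun h21 => ?_, fun h28 => ?_⟩
  · rcases Helper16.twenty_one hF hs' h21 with h | ⟨h27, p, hp0, hpF, hpE, hpW⟩
    · refine Or.inl ⟨?_, h⟩
      have hirr := Helper16.irreducible_dh hF hs'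
      exact (Ideal.span_singleton_prime hirr.ne_zero).mpr hirr.prime
    · exact Or.inr ⟨h27, p, ⟨hp0, hpF, hpE⟩, fun W hW => hpW W hW.1 hW.2⟩
  · have hset : planes F = {W | (Helper16.cubOf F hF hs').Pl W} := by
      ext W; exact (Helper16.pl_iff hF hs' W).symm
    have hV : finrank ℂ (Fin 6 → ℂ) = 6 := by simp
    rw [hset] at h28 ⊢
    obtain ⟨A, B, hA, hB, hAB⟩ := Helper16.Cub.exists_disjoint hV h28
    exact ⟨A, hA, B, hB, hAB⟩

end Pool.Agent.Results.MP_ffd2c1_ag.TwentyOnePlanes
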